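import Mathlib

set_option autoImplicit false

namespace Pool.Agent.Helper66.WSC

variable {𝕜 B : Type} [RCLike 𝕜] [NormedAddCommGroup B] [NormedSpace 𝕜 B]

/-- The projective orbit `{λ T^n x : λ ∈ 𝕜, n ≥ 0}`. -/
def projOrbit (T : B →L[𝕜] B) (x : B) : Set B :=
  {y | ∃ (c : 𝕜) (n : ℕ), y = c • (T ^ n) x}

/-- `T` is supercyclic: some projective orbit is norm-dense. -/
def IsSupercyclic (T : B →L[𝕜] B) : Prop :=
  ∃ x : B, Dense (projOrbit T x)

/-- `T` is weakly supercyclic: some projective orbit is dense in the weak topology `σ(B, B*)`. -/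
def IsWeaklySupercyclic (T : B →L[𝕜] B) : Prop :=
  ∃ x : B, Dense (toWeakSpace 𝕜 B '' projOrbit T x)

/-- Standing hypothesis (H): `T` commutes with a compact operator `S` with dense range. -/
def HypothesisH (T : B →L[𝕜] B) : Prop :=
  ∃ S : B →L[𝕜] B, IsCompactOperator S ∧ DenseRange S ∧ T ∘L S = S ∘L T

end Pool.Agent.Helper66.WSC
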