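import Mathlib
import Pool.Agent.Helper66.WSC.Defs

set_option autoImplicit false

open Topology Filter Set

namespace Pool.Agent.Helper66.WSC

variable {𝕜 B : Type} [RCLike 𝕜] [NormedAddCommGroup B] [NormedSpace 𝕜 B]

lemma mem_weakClosure {A : Set B} {y : B}
    (h : ∀ (F : Finset (StrongDual 𝕜 B)) (ε : ℝ), 0 < ε → ∃ z ∈ A, ∀ φ ∈ F, ‖φ (z - y)‖ < ε) :
    toWeakSpace 𝕜 B y ∈ closure (toWeakSpace 𝕜 B '' A) := by
  rw [mem_closure_iff_nhds]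
  intro t ht
  have hW := LinearMap.weakBilin_withSeminorms (topDualPairing 𝕜 B).flip
  obtain ⟨F, r, hr, hF⟩ := (hW.mem_nhds_iff _ _).1 ht
  obtain ⟨z, hz, hzF⟩ := h F r hr
  refine ⟨toWeakSpace 𝕜 B z, hF ?_, z, hz, rfl⟩
  change (F.sup (topDualPairing 𝕜 B).flip.toSeminormFamily) (z - y) < r
  exact Seminorm.finset_sup_apply_lt hr (fun φ hφ => hzF φ hφ)

lemma sum_norm_apply_le {M : ℕ} (v : Fin M → B) (b : ℝ)
    (h : ∀ ε : Fin M → 𝕜, (∀ j, ‖ε j‖ ≤ 1) → ‖∑ j, ε j • v j‖ ≤ b) (φ : StrongDual 𝕜 B) :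
    ∑ j, ‖φ (v j)‖ ≤ ‖φ‖ * b := by
  classical
  let ε : Fin M → 𝕜 := fun j => if φ (v j) = 0 then 0 else (starRingEnd 𝕜) (φ (v j)) / ‖φ (v j)‖
  have hε : ∀ j, ‖ε j‖ ≤ 1 := by
    intro j
    simp only [ε]
    split_ifs with h0
    · simp
    · rw [norm_div, RCLike.norm_conj]
      simp [h0]
  have h1 : φ (∑ j, ε j • v j) = ((∑ j, ‖φ (v j)‖ : ℝ) : 𝕜) := by
    rw [map_sum]
    push_cast
    refine Finset.sum_congr rfl fun j _ => ?_
    rw [map_smul, smul_eq_mul]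
    simp only [ε]
    split_ifs with h0
    · simp [h0]
    · have hn : ((‖φ (v j)‖ : ℝ) : 𝕜) ≠ 0 := by
        simpa using h0
      rw [div_mul_eq_mul_div, RCLike.conj_mul]
      field_simp
  have h2 : ‖φ (∑ j, ε j • v j)‖ = ∑ j, ‖φ (v j)‖ := by
    rw [h1, RCLike.norm_ofReal, abs_of_nonneg (Finset.sum_nonneg fun _ _ => norm_nonneg _)]
  rw [← h2]
  exact (φ.le_opNorm _).trans (mul_le_mul_of_nonneg_left (h ε hε) (norm_nonneg _))

/-- The open sets used in the Baire category argument. -/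
def G (T : B →L[𝕜] B) (y : B) (K : ℕ) : Set B :=
  {x | ∃ (M : ℕ) (n : Fin M → ℕ) (c : Fin M → 𝕜) (b' b : ℝ), 0 < b' ∧ b' < b ∧ K * b ≤ M ∧
    ∀ ε : Fin M → 𝕜, (∀ j, ‖ε j‖ ≤ 1) → ‖∑ j, ε j • (c j • (T ^ (n j)) x - y)‖ ≤ b'}

lemma isOpen_G (T : B →L[𝕜] B) (y : B) (K : ℕ) : IsOpen (G T y K) := by
  rw [Metric.isOpen_iff]
  rintro x ⟨M, n, c, b', b, hb', hbb, hK, h⟩
  set C : ℝ := ∑ j, ‖c j‖ * ‖T ^ (n j)‖ with hC
  have hC0 : 0 ≤ C := Finset.sum_nonneg fun _ _ => by positivity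
  refine ⟨(b - b') / (2 * (C + 1)), by have := sub_pos.2 hbb; positivity, ?_⟩
  intro x' hx'
  rw [Metric.mem_ball, dist_eq_norm] at hx'
  refine ⟨M, n, c, (b + b') / 2, b, by linarith, by linarith, hK, ?_⟩
  intro ε hε
  have h1 : ∑ j, ε j • (c j • (T ^ (n j)) x' - y) =
      ∑ j, ε j • (c j • (T ^ (n j)) x - y) + ∑ j, ε j • (c j • (T ^ (n j)) (x' - x)) := by
    rw [← Finset.sum_add_distrib]
    refine Finset.sum_congr rfl fun j _ => ?_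
    rw [map_sub, ← smul_add]
    congr 1
    rw [smul_sub]
    abel
  have h2 : ‖∑ j, ε j • (c j • (T ^ (n j)) (x' - x))‖ ≤ C * ‖x' - x‖ := by
    refine (norm_sum_le _ _).trans ?_
    rw [hC, Finset.sum_mul]
    refine Finset.sum_le_sum fun j _ => ?_
    rw [norm_smul, norm_smul]
    have h3 := (T ^ (n j)).le_opNorm (x' - x)
    calc ‖ε j‖ * (‖c j‖ * ‖(T ^ n j) (x' - x)‖) ≤ 1 * (‖c j‖ * (‖T ^ n j‖ * ‖x' - x‖)) := by
          gcongr
          exact hε j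
      _ = ‖c j‖ * ‖T ^ n j‖ * ‖x' - x‖ := by ring
  rw [h1]
  refine (norm_add_le _ _).trans ?_
  have h4 : C * ‖x' - x‖ ≤ (b - b') / 2 := by
    have h5 : C * ‖x' - x‖ ≤ C * ((b - b') / (2 * (C + 1))) :=
      mul_le_mul_of_nonneg_left hx'.le hC0
    refine h5.trans ?_
    rw [mul_div_assoc']
    rw [div_le_div_iff₀ (by positivity) (by norm_num)]
    have := sub_pos.2 hbb
    nlinarith [mul_nonneg hC0 this.le]
  linarith [h ε hε]

lemma mem_weakClosure_of_mem_G {T : B →L[𝕜] B} {x y : B} (h : ∀ K : ℕ, x ∈ G T y K) :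
    toWeakSpace 𝕜 B y ∈ closure (toWeakSpace 𝕜 B '' projOrbit T x) := by
  apply mem_weakClosure
  intro F ε hε
  by_contra hcon
  push Not at hcon
  set Φ : ℝ := ∑ φ ∈ F, ‖φ‖ with hΦ
  have hΦ0 : 0 ≤ Φ := Finset.sum_nonneg fun _ _ => norm_nonneg _
  obtain ⟨K, hK⟩ := exists_nat_gt (Φ / ε)
  obtain ⟨M, n, c, b', b, hb', hbb, hKb, hv⟩ := h K
  have h1 : ∀ j : Fin M, ε ≤ ∑ φ ∈ F, ‖φ (c j • (T ^ (n j)) x - y)‖ := by
    intro j
    obtain ⟨φ, hφF, hφ⟩ := hcon (c j • (T ^ (n j)) x) ⟨c j, n j, rfl⟩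
    exact hφ.trans (Finset.single_le_sum (f := fun φ : StrongDual 𝕜 B =>
      ‖φ (c j • (T ^ (n j)) x - y)‖) (fun _ _ => norm_nonneg _) hφF)
  have h2 : (M : ℝ) * ε ≤ ∑ j : Fin M, ∑ φ ∈ F, ‖φ (c j • (T ^ (n j)) x - y)‖ := by
    have := Finset.sum_le_sum (s := (Finset.univ : Finset (Fin M))) (fun j _ => h1 j)
    simpa using this
  rw [Finset.sum_comm] at h2
  have h3 : ∑ φ ∈ F, ∑ j : Fin M, ‖φ (c j • (T ^ (n j)) x - y)‖ ≤ ∑ φ ∈ F, ‖φ‖ * b' :=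
    Finset.sum_le_sum fun φ _ => sum_norm_apply_le _ b' hv φ
  rw [← Finset.sum_mul, ← hΦ] at h3
  have h4 : (K : ℝ) * b * ε ≤ Φ * b' := by
    calc (K : ℝ) * b * ε ≤ M * ε := by gcongr
      _ ≤ Φ * b' := h2.trans h3
  have h5 : Φ < K * ε := by rwa [div_lt_iff₀ hε] at hK
  have hK0 : 0 < (K : ℝ) := lt_of_le_of_lt (by positivity) hK
  have h6 : Φ * b' ≤ Φ * b := by gcongr
  have h7 : Φ * b < K * ε * b := by
    have : 0 < b := hb'.trans hbb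
    gcongr
  nlinarith

theorem isWeaklySupercyclic_of [CompleteSpace B] (T : B →L[𝕜] B) (D : Set B) (hDd : Dense D)
    (hDs : TopologicalSpace.IsSeparable D)
    (h : ∀ x₀ ∈ D, ∀ y ∈ D, ∀ δ : ℝ, 0 < δ → ∀ K : ℕ, ∃ z : B, ‖z‖ < δ ∧ x₀ + z ∈ G T y K) :
    IsWeaklySupercyclic T := by
  obtain ⟨D', hD'D, hD'c, hD'⟩ := hDs.exists_countable_dense_subset
  have hD'd : Dense D' := by
    intro x
    have := hDd x
    exact closure_minimal hD' isClosed_closure this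
  have hcount : Countable D' := hD'c
  have hdense : Dense (⋂ p : D' × ℕ, G T (p.1 : B) p.2) := by
    apply dense_iInter_of_isOpen
    · intro p
      exact isOpen_G T _ _
    · rintro ⟨⟨y, hy⟩, K⟩
      rw [Metric.dense_iff]
      intro x r hr
      obtain ⟨x₀, hx₀D, hx₀⟩ := Metric.dense_iff.1 hDd x (r / 2) (by positivity)
      rw [Metric.mem_ball, dist_comm] at hx₀D
      obtain ⟨z, hz, hzG⟩ := h x₀ hx₀ y (hD'D hy) (r / 2) (by positivity) K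
      refine ⟨x₀ + z, ?_, hzG⟩
      rw [Metric.mem_ball]
      calc dist (x₀ + z) x ≤ dist (x₀ + z) x₀ + dist x₀ x := dist_triangle _ _ _
        _ = ‖z‖ + dist x x₀ := by rw [dist_eq_norm (x₀ + z), add_sub_cancel_left, dist_comm x₀ x]
        _ < r := by linarith
  obtain ⟨x, hx⟩ := hdense.nonempty
  rw [Set.mem_iInter] at hx
  refine ⟨x, ?_⟩
  have hcl : ∀ y ∈ D', toWeakSpace 𝕜 B y ∈ closure (toWeakSpace 𝕜 B '' projOrbit T x) := by
    intro y hy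
    apply mem_weakClosure_of_mem_G
    intro K
    exact hx (⟨y, hy⟩, K)
  intro y
  have hclosed : IsClosed ((toWeakSpaceCLM 𝕜 B) ⁻¹' closure (toWeakSpace 𝕜 B '' projOrbit T x)) :=
    isClosed_closure.preimage (toWeakSpaceCLM 𝕜 B).continuous
  have hsub : closure D' ⊆
      ((toWeakSpaceCLM 𝕜 B) ⁻¹' closure (toWeakSpace 𝕜 B '' projOrbit T x)) :=
    closure_minimal (fun y hy => hcl y hy) hclosed
  exact hsub (hD'd ((toWeakSpace 𝕜 B).symm y))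

end Pool.Agent.Helper66.WSC
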