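import Mathlib

set_option autoImplicit false

open Finset

namespace Pool.Agent.Helper66.WSC

/-- The ends of the blocks. -/
def N : ℕ → ℕ
  | 0 => 0
  | s + 1 => N s + (2 * s + 2) * 3 ^ ((s + 1) ^ (4 * s + N s + 1)) + s + 1

lemma N_succ (s : ℕ) :
    N (s + 1) = N s + (2 * s + 2) * 3 ^ ((s + 1) ^ (4 * s + N s + 1)) + s + 1 := rfl

lemma N_lt_succ (s : ℕ) : N s < N (s + 1) := by
  rw [N_succ]; omega

lemma N_strictMono : StrictMono N := strictMono_nat_of_lt_succ N_lt_succ

/-- The index of the block containing `n`. -/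
def sig (n : ℕ) : ℕ := ((range (n + 1)).filter (fun s => N (s + 1) ≤ n)).card

lemma sig_mono : Monotone sig := by
  intro a b hab
  apply card_le_card
  intro s
  simp only [mem_filter, mem_range]
  rintro ⟨h1, h2⟩
  exact ⟨by omega, h2.trans hab⟩

lemma sig_le {n s : ℕ} (h : n < N (s + 1)) : sig n ≤ s := by
  have : ((range (n + 1)).filter (fun s => N (s + 1) ≤ n)) ⊆ range s := by
    intro i
    simp only [mem_filter, mem_range]
    rintro ⟨_, h2⟩
    by_contra hcon
    push Not at hcon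
    have := N_strictMono.monotone (show s + 1 ≤ i + 1 by omega)
    omega
  unfold sig
  simpa using card_le_card this

lemma le_sig {n s : ℕ} (h : N s ≤ n) : s ≤ sig n := by
  have : range s ⊆ ((range (n + 1)).filter (fun s => N (s + 1) ≤ n)) := by
    intro i
    simp only [mem_filter, mem_range]
    intro hi
    have h1 := N_strictMono.monotone (show i + 1 ≤ s by omega)
    have h2 := N_strictMono.le_apply (x := s)
    exact ⟨by omega, by omega⟩
  unfold sig
  simpa using card_le_card this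

/-- The weights. -/
noncomputable def u (n : ℕ) : ℝ := 1 / ((sig n : ℝ) + 1)

lemma u_pos (n : ℕ) : 0 < u n := by unfold u; positivity

lemma u_le_one (n : ℕ) : u n ≤ 1 := by
  unfold u
  rw [div_le_one (by positivity)]
  have : (0 : ℝ) ≤ sig n := by positivity
  linarith

lemma u_antitone : Antitone u := by
  intro a b hab
  unfold u
  have : (sig a : ℝ) ≤ sig b := by exact_mod_cast sig_mono hab
  gcongr

lemma le_u {n s : ℕ} (h : n < N (s + 1)) : 1 / ((s : ℝ) + 1) ≤ u n := by
  unfold u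
  have : (sig n : ℝ) ≤ s := by exact_mod_cast sig_le h
  gcongr

lemma u_le {n s : ℕ} (h : N s ≤ n) : u n ≤ 1 / ((s : ℝ) + 1) := by
  unfold u
  have : (s : ℝ) ≤ sig n := by exact_mod_cast le_sig h
  gcongr

/-- Products of weights. -/
noncomputable def W (n : ℕ) : ℝ := ∏ l ∈ range n, u l

lemma W_zero : W 0 = 1 := by simp [W]

lemma W_succ (n : ℕ) : W (n + 1) = W n * u n := prod_range_succ _ _

lemma W_pos (n : ℕ) : 0 < W n := prod_pos fun _ _ => u_pos _

lemma W_antitone : Antitone W := by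
  apply antitone_nat_of_succ_le
  intro n
  rw [W_succ]
  exact mul_le_of_le_one_right (W_pos n).le (u_le_one n)

lemma W_add (a k : ℕ) : W (a + k) = W a * ∏ l ∈ range k, u (a + l) := by
  unfold W
  rw [prod_range_add]

lemma W_add_le (a b : ℕ) : W (a + b) ≤ W a * W b := by
  rw [W_add]
  unfold W
  apply mul_le_mul_of_nonneg_left _ (W_pos a).le
  apply prod_le_prod
  · intro i _; exact (u_pos _).le
  · intro i _; exact u_antitone (by omega)

lemma W_mul_le {s a k : ℕ} (h : a + k ≤ N (s + 1)) :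
    W k * W a ≤ ((s : ℝ) + 1) ^ (N s) * W (a + k) := by
  rw [W_add]
  have h1 : W k ≤ ((s : ℝ) + 1) ^ (N s) * ∏ l ∈ range k, u (a + l) := by
    have h2 : W k ≤ ∏ l ∈ range k, ((if l < N s then ((s : ℝ) + 1) else 1) * u (a + l)) := by
      unfold W
      apply prod_le_prod
      · intro i _; exact (u_pos _).le
      · intro l hl
        rw [mem_range] at hl
        have h3 := le_u (n := a + l) (s := s) (by omega)
        have hs : (0 : ℝ) < (s : ℝ) + 1 := by positivity
        split_ifs with h4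
        · calc u l ≤ 1 := u_le_one l
            _ = ((s : ℝ) + 1) * (1 / ((s : ℝ) + 1)) := by field_simp
            _ ≤ ((s : ℝ) + 1) * u (a + l) := by gcongr
        · rw [one_mul]
          exact (u_le (by omega : N s ≤ l)).trans h3
    refine h2.trans ?_
    rw [prod_mul_distrib]
    apply mul_le_mul_of_nonneg_right _ (prod_nonneg fun _ _ => (u_pos _).le)
    rw [prod_ite, prod_const_one, mul_one, prod_const]
    apply pow_le_pow_right₀
    · have : (0 : ℝ) ≤ s := by positivity
      linarith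
    · have : (range k).filter (fun l => l < N s) ⊆ range (N s) := by
        intro i; simp
      simpa using card_le_card this
  calc W k * W a ≤ (((s : ℝ) + 1) ^ (N s) * ∏ l ∈ range k, u (a + l)) * W a := by
        apply mul_le_mul_of_nonneg_right h1 (W_pos a).le
    _ = _ := by ring

/-- The weight function on `ℤ`. -/
noncomputable def nu : ℤ → ℝ
  | Int.ofNat n => W n
  | Int.negSucc n => (W (n + 1))⁻¹

lemma nu_natCast (n : ℕ) : nu (n : ℤ) = W n := rfl

lemma nu_neg (n : ℕ) : nu (-(n : ℤ)) = (W n)⁻¹ := by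
  cases n with
  | zero => simp [W_zero, show nu 0 = W 0 from rfl]
  | succ n => rfl

lemma nu_pos (i : ℤ) : 0 < nu i := by
  rcases Int.eq_nat_or_neg i with ⟨n, rfl | rfl⟩
  · rw [nu_natCast]; exact W_pos n
  · rw [nu_neg]; exact inv_pos.2 (W_pos n)

/-- `nu (i+1) = nu i * u (j)` with `j = i` for `i ≥ 0` and `j = -i-1` for `i<0`. -/
lemma nu_succ_nat (n : ℕ) : nu ((n : ℤ) + 1) = nu (n : ℤ) * u n := by
  have : ((n : ℤ) + 1) = ((n + 1 : ℕ) : ℤ) := by push_cast; ring
  rw [this, nu_natCast, nu_natCast, W_succ]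

lemma nu_succ_neg (n : ℕ) : nu (-(n : ℤ)) = nu (-(n : ℤ) - 1) * u n := by
  have : (-(n : ℤ) - 1) = -((n + 1 : ℕ) : ℤ) := by push_cast; ring
  rw [this, nu_neg, nu_neg, W_succ]
  have := (W_pos n).ne'
  have := (u_pos n).ne'
  field_simp

/-- The index of the weight between `i - 1` and `i`. -/
def idx (i : ℤ) : ℕ := if 0 < i then (i - 1).toNat else (-i).toNat

lemma nu_step (i : ℤ) : nu i = nu (i - 1) * u (idx i) := by
  by_cases hi : 0 < i
  · obtain ⟨n, rfl⟩ : ∃ n : ℕ, i = (n : ℤ) + 1 := ⟨(i - 1).toNat, by omega⟩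
    have : idx ((n : ℤ) + 1) = n := by unfold idx; split_ifs; omega
    rw [this, nu_succ_nat, add_sub_cancel_right]
  · obtain ⟨n, rfl⟩ : ∃ n : ℕ, i = -(n : ℤ) := ⟨(-i).toNat, by omega⟩
    have : idx (-(n : ℤ)) = n := by unfold idx; split_ifs; omega
    rw [this, nu_succ_neg]

lemma nu_antitone : Antitone nu := by
  apply antitone_int_of_succ_le
  intro i
  rw [nu_step (i + 1), add_sub_cancel_right]
  exact mul_le_of_le_one_right (nu_pos i).le (u_le_one _)

lemma nu_sub_le {s : ℕ} (m : ℕ) {d : ℤ} (h : |d| + m ≤ N (s + 1)) :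
    nu (d - m) ≤ ((s : ℝ) + 1) ^ m * nu d := by
  induction m with
  | zero => simp
  | succ m ih =>
    have ih' := ih (by push_cast at h ⊢; omega)
    have h1 := nu_step (d - m)
    have h2 : d - (m : ℤ) - 1 = d - ((m + 1 : ℕ) : ℤ) := by push_cast; ring
    rw [h2] at h1
    have h3 : 1 / ((s : ℝ) + 1) ≤ u (idx (d - m)) := by
      apply le_u
      unfold idx
      push_cast at h
      have := abs_le.1 (le_refl |d|)
      split_ifs <;> omega
    have hs : (0 : ℝ) < (s : ℝ) + 1 := by positivity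
    have h4 : nu (d - ((m + 1 : ℕ) : ℤ)) ≤ ((s : ℝ) + 1) * nu (d - m) := by
      rw [h1]
      have h5 := (nu_pos (d - ((m + 1 : ℕ) : ℤ)))
      calc nu (d - ((m + 1 : ℕ) : ℤ)) = ((s : ℝ) + 1) * (nu (d - ((m + 1 : ℕ) : ℤ)) *
            (1 / ((s : ℝ) + 1))) := by field_simp
        _ ≤ _ := by gcongr
    calc nu (d - ((m + 1 : ℕ) : ℤ)) ≤ ((s : ℝ) + 1) * nu (d - m) := h4
      _ ≤ ((s : ℝ) + 1) * (((s : ℝ) + 1) ^ m * nu d) := by gcongr
      _ = _ := by ring

lemma nu_ratio_le {s m : ℕ} {p d : ℤ} (hp : |p| ≤ m) (hd : |d| + m ≤ N (s + 1)) :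
    nu (p + d) / nu p ≤ ((s : ℝ) + 1) ^ (2 * m) * nu d := by
  have hs : (0 : ℝ) < (s : ℝ) + 1 := by positivity
  have h1 : nu (p + d) ≤ ((s : ℝ) + 1) ^ m * nu d := by
    refine le_trans (nu_antitone ?_) (nu_sub_le m hd)
    have := neg_le_of_abs_le hp
    omega
  have h2 : (nu p)⁻¹ ≤ ((s : ℝ) + 1) ^ m := by
    have h3 : nu (m : ℤ) ≤ nu p := nu_antitone (le_of_abs_le hp)
    have h4 : nu (-(m : ℤ)) ≤ ((s : ℝ) + 1) ^ m * nu 0 := by
      have := nu_sub_le (s := s) m (d := 0) (by
        have := abs_nonneg d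
        simp only [abs_zero]; omega)
      simpa using this
    have h5 : nu 0 = 1 := by rw [show nu 0 = W 0 from rfl, W_zero]
    rw [nu_neg, h5, mul_one] at h4
    rw [nu_natCast] at h3
    exact (inv_anti₀ (W_pos m) h3).trans h4
  rw [div_eq_mul_inv]
  calc nu (p + d) * (nu p)⁻¹ ≤ (((s : ℝ) + 1) ^ m * nu d) * ((s : ℝ) + 1) ^ m := by
        have := nu_pos d
        have := nu_pos p
        gcongr
    _ = _ := by ring

end Pool.Agent.Helper66.WSC
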