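import Mathlib
import Pool.Agent.Helper66.WSC.Weights
import Pool.Agent.Helper66.WSC.Abstract

set_option autoImplicit false

open Topology Filter Set ZeroAtInfty

namespace Pool.Agent.Helper66.WSC

variable {𝕜 : Type} [RCLike 𝕜]

/-- Build an element of `c₀(ℤ)`. -/
def mk0 (f : ℤ → 𝕜) (hf : Tendsto f cofinite (𝓝 0)) : C₀(ℤ, 𝕜) where
  toFun := f
  continuous_toFun := continuous_of_discreteTopology
  zero_at_infty' := by rwa [cocompact_eq_cofinite]

@[simp] lemma mk0_apply (f : ℤ → 𝕜) (hf : Tendsto f cofinite (𝓝 0)) (i : ℤ) :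
    mk0 f hf i = f i := rfl

lemma tendsto_cofinite (x : C₀(ℤ, 𝕜)) : Tendsto (x : ℤ → 𝕜) cofinite (𝓝 0) := by
  have := x.zero_at_infty'
  rwa [cocompact_eq_cofinite] at this

lemma norm_apply_le (x : C₀(ℤ, 𝕜)) (i : ℤ) : ‖x i‖ ≤ ‖x‖ := by
  have := x.toBCF.norm_coe_le_norm i
  rwa [ZeroAtInftyContinuousMap.norm_toBCF_eq_norm] at this

lemma norm_le {x : C₀(ℤ, 𝕜)} {C : ℝ} (hC : 0 ≤ C) : ‖x‖ ≤ C ↔ ∀ i, ‖x i‖ ≤ C := by
  rw [← ZeroAtInftyContinuousMap.norm_toBCF_eq_norm, BoundedContinuousFunction.norm_le hC]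
  rfl

/-- ratio of consecutive weights -/
noncomputable def r (i : ℤ) : ℝ := nu i / nu (i - 1)

lemma r_eq (i : ℤ) : r i = u (idx i) := by
  unfold r
  rw [nu_step i]
  have := (nu_pos (i - 1)).ne'
  field_simp

lemma r_pos (i : ℤ) : 0 < r i := div_pos (nu_pos _) (nu_pos _)

lemma r_le_one (i : ℤ) : r i ≤ 1 := by rw [r_eq]; exact u_le_one _

lemma norm_r_mul_le (i : ℤ) (a : 𝕜) : ‖((r i : ℝ) : 𝕜) * a‖ ≤ ‖a‖ := by
  rw [norm_mul, RCLike.norm_ofReal, abs_of_pos (r_pos i)]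
  exact mul_le_of_le_one_left (norm_nonneg _) (r_le_one i)

lemma u_tendsto : Tendsto u atTop (𝓝 0) := by
  rw [Metric.tendsto_atTop]
  intro ε hε
  obtain ⟨s, hs⟩ := exists_nat_one_div_lt hε
  refine ⟨N s, fun n hn => ?_⟩
  rw [Real.dist_eq, sub_zero, abs_of_pos (u_pos n)]
  exact (u_le hn).trans_lt hs

lemma r_tendsto : Tendsto r cofinite (𝓝 0) := by
  have h : Tendsto idx cofinite atTop := by
    rw [← Nat.cofinite_eq_atTop]
    refine Tendsto.cofinite_of_finite_preimage_singleton ?_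
    intro n
    apply (Set.finite_Icc (-(n : ℤ)) ((n : ℤ) + 1)).subset
    intro i hi
    simp only [mem_preimage, mem_singleton_iff, idx] at hi
    simp only [mem_Icc]
    split_ifs at hi <;> constructor <;> omega
  have := u_tendsto.comp h
  refine this.congr fun i => ?_
  exact (r_eq i).symm

/-- The weighted shift as a linear map. -/
noncomputable def Tlin : C₀(ℤ, 𝕜) →ₗ[𝕜] C₀(ℤ, 𝕜) where
  toFun x := mk0 (fun i => ((r i : ℝ) : 𝕜) * x (i - 1)) (by
    have h1 : Tendsto (fun i : ℤ => x (i - 1)) cofinite (𝓝 0) :=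
      (tendsto_cofinite x).comp (Function.Injective.tendsto_cofinite (sub_left_injective))
    refine squeeze_zero_norm (a := fun i => ‖x (i - 1)‖) (fun i => norm_r_mul_le i _) ?_
    simpa using h1.norm)
  map_add' x y := by ext i; simp [mul_add]
  map_smul' c x := by
    ext i
    simp only [mk0_apply, ZeroAtInftyContinuousMap.smul_apply, RingHom.id_apply, smul_eq_mul]
    ring

/-- The weighted bilateral shift. -/
noncomputable def T : C₀(ℤ, 𝕜) →L[𝕜] C₀(ℤ, 𝕜) :=
  Tlin.mkContinuous 1 (fun x => by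
    rw [one_mul, norm_le (norm_nonneg _)]
    intro i
    exact (norm_r_mul_le i _).trans (norm_apply_le _ _))

lemma T_apply (x : C₀(ℤ, 𝕜)) (i : ℤ) : T x i = ((r i : ℝ) : 𝕜) * x (i - 1) := rfl

lemma T_pow_apply (n : ℕ) (x : C₀(ℤ, 𝕜)) (i : ℤ) :
    (T ^ n) x i = ((nu i / nu (i - n) : ℝ) : 𝕜) * x (i - n) := by
  induction n generalizing i with
  | zero =>
    have := (nu_pos i).ne'
    simp [this]
  | succ n ih =>
    rw [pow_succ', mul_apply_eq_comp, T_apply, ih, r, ← mul_assoc, ← RCLike.ofReal_mul]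
    have h1 : i - 1 - (n : ℤ) = i - ((n + 1 : ℕ) : ℤ) := by push_cast; ring
    rw [h1]
    congr 2
    have := (nu_pos (i - 1)).ne'
    field_simp

/-- Truncation to `[-m, m]`. -/
noncomputable def trunc (m : ℕ) (x : C₀(ℤ, 𝕜)) : C₀(ℤ, 𝕜) :=
  mk0 (fun i => if |i| ≤ m then x i else 0) (by
    apply tendsto_nhds_of_eventually_eq
    rw [Filter.eventually_cofinite]
    apply (Set.finite_Icc (-(m : ℤ)) m).subset
    intro i hi
    simp only [mem_ofPred_eq, ite_eq_right_iff, Classical.not_imp] at hi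
    exact abs_le.1 hi.1)

lemma trunc_apply (m : ℕ) (x : C₀(ℤ, 𝕜)) (i : ℤ) :
    trunc m x i = if |i| ≤ m then x i else 0 := rfl

/-- Finitely supported vectors. -/
def D0 : Set C₀(ℤ, 𝕜) := {x | ∃ m : ℕ, ∀ i, (m : ℤ) < |i| → x i = 0}

lemma trunc_tendsto (x : C₀(ℤ, 𝕜)) : Tendsto (fun m => trunc m x) atTop (𝓝 x) := by
  rw [Metric.tendsto_atTop]
  intro ε hε
  have h1 := tendsto_cofinite x
  rw [Metric.tendsto_nhds] at h1
  have h2 := h1 (ε / 2) (by positivity)
  rw [Filter.eventually_cofinite] at h2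
  obtain ⟨m, hm⟩ : ∃ m : ℕ, ∀ i, ¬ dist (x i) 0 < ε / 2 → |i| ≤ m := by
    obtain ⟨b, hb⟩ := (h2.image (fun i : ℤ => |i|)).bddAbove
    refine ⟨b.toNat, fun i hi => ?_⟩
    have := hb (Set.mem_image_of_mem _ hi)
    omega
  refine ⟨m, fun n hn => ?_⟩
  rw [dist_eq_norm]
  refine lt_of_le_of_lt ?_ (half_lt_self hε)
  rw [norm_le (by positivity)]
  intro i
  rw [ZeroAtInftyContinuousMap.sub_apply, trunc_apply]
  split_ifs with h
  · simp only [sub_self, norm_zero]; positivity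
  · by_contra hcon
    apply h
    refine (hm i ?_).trans (by exact_mod_cast hn)
    intro h3
    apply hcon
    rw [zero_sub, norm_neg]
    rw [dist_zero_right] at h3
    exact h3.le

lemma dense_D0 : Dense (D0 : Set C₀(ℤ, 𝕜)) := by
  intro x
  refine mem_closure_of_tendsto (trunc_tendsto x) (Eventually.of_forall fun m => ⟨m, fun i hi => ?_⟩)
  rw [trunc_apply, if_neg (by omega)]

/-- unit vectors -/
noncomputable def e (k : ℤ) : C₀(ℤ, 𝕜) :=
  mk0 (fun i => if i = k then 1 else 0) (by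
    apply tendsto_nhds_of_eventually_eq
    rw [Filter.eventually_cofinite]
    apply (Set.finite_singleton k).subset
    intro i hi
    simpa using hi)

lemma e_apply (k i : ℤ) : (e k : C₀(ℤ, 𝕜)) i = if i = k then 1 else 0 := rfl

lemma trunc_eq_sum (m : ℕ) (x : C₀(ℤ, 𝕜)) :
    trunc m x = ∑ k ∈ Finset.Icc (-(m : ℤ)) m, x k • (e k : C₀(ℤ, 𝕜)) := by
  ext i
  rw [trunc_apply]
  have h1 : (∑ k ∈ Finset.Icc (-(m : ℤ)) m, x k • (e k : C₀(ℤ, 𝕜))) i =
      ∑ k ∈ Finset.Icc (-(m : ℤ)) m, x k * (if i = k then 1 else 0) := by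
    have : ∀ s : Finset ℤ, (∑ k ∈ s, x k • (e k : C₀(ℤ, 𝕜))) i =
        ∑ k ∈ s, x k * (if i = k then 1 else 0) := by
      intro s
      classical
      induction s using Finset.induction_on with
      | empty => simp
      | insert a s ha ih =>
        rw [Finset.sum_insert ha, Finset.sum_insert ha, ZeroAtInftyContinuousMap.add_apply, ih]
        rfl
    exact this _
  rw [h1]
  simp only [mul_ite, mul_one, mul_zero, Finset.sum_ite_eq, Finset.mem_Icc]
  simp only [abs_le]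

/-- evaluation functional -/
noncomputable def ev (k : ℤ) : StrongDual 𝕜 C₀(ℤ, 𝕜) :=
  LinearMap.mkContinuous
    { toFun := fun x => x k
      map_add' := fun _ _ => rfl
      map_smul' := fun _ _ => rfl } 1 (fun x => by
        rw [one_mul]; exact norm_apply_le x k)

lemma ev_apply (k : ℤ) (x : C₀(ℤ, 𝕜)) : ev k x = x k := rfl

lemma isSeparable_D0 : TopologicalSpace.IsSeparable (D0 : Set C₀(ℤ, 𝕜)) := by
  have h1 : (D0 : Set C₀(ℤ, 𝕜)) ⊆
      (Submodule.span 𝕜 (Set.range (e : ℤ → C₀(ℤ, 𝕜))) : Set C₀(ℤ, 𝕜)) := by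
    rintro x ⟨m, hm⟩
    have : x = trunc m x := by
      ext i
      rw [trunc_apply]
      split_ifs with h
      · rfl
      · exact hm i (by omega)
    rw [this, trunc_eq_sum]
    exact Submodule.sum_mem _ fun k _ => Submodule.smul_mem _ _ (Submodule.subset_span ⟨k, rfl⟩)
  refine TopologicalSpace.IsSeparable.mono ?_ h1
  exact TopologicalSpace.IsSeparable.span (Set.countable_range _).isSeparable

lemma T_e (k : ℤ) : T (e k : C₀(ℤ, 𝕜)) = ((r (k + 1) : ℝ) : 𝕜) • e (k + 1) := by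
  ext i
  rw [T_apply, ZeroAtInftyContinuousMap.smul_apply, e_apply, e_apply, smul_eq_mul]
  by_cases h : i = k + 1
  · subst h; simp
  · rw [if_neg h, if_neg (by omega)]; simp

lemma denseRange_T : DenseRange (T : C₀(ℤ, 𝕜) →L[𝕜] C₀(ℤ, 𝕜)) := by
  have h1 : (D0 : Set C₀(ℤ, 𝕜)) ⊆ Set.range (T : C₀(ℤ, 𝕜) →L[𝕜] C₀(ℤ, 𝕜)) := by
    rintro x ⟨m, hm⟩
    have h2 : x = trunc m x := by
      ext i
      rw [trunc_apply]
      split_ifs with h
      · rfl
      · exact hm i (by omega)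
    have h3 : x ∈ LinearMap.range (T : C₀(ℤ, 𝕜) →L[𝕜] C₀(ℤ, 𝕜)).toLinearMap := by
      rw [h2, trunc_eq_sum]
      refine Submodule.sum_mem _ fun k _ => Submodule.smul_mem _ _ ?_
      refine ⟨(((r k : ℝ) : 𝕜))⁻¹ • e (k - 1), ?_⟩
      rw [map_smul]
      have h4 : (T : C₀(ℤ, 𝕜) →L[𝕜] C₀(ℤ, 𝕜)).toLinearMap (e (k - 1)) =
        ((r k : ℝ) : 𝕜) • e k := by
        have := T_e (𝕜 := 𝕜) (k - 1)
        rw [sub_add_cancel] at this
        exact this
      rw [h4, smul_smul, inv_mul_cancel₀, one_smul]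
      exact_mod_cast (r_pos k).ne'
    exact h3
  exact dense_D0.mono h1

lemma isCompactOperator_T : IsCompactOperator (T : C₀(ℤ, 𝕜) →L[𝕜] C₀(ℤ, 𝕜)) := by
  let F : ℕ → (C₀(ℤ, 𝕜) →L[𝕜] C₀(ℤ, 𝕜)) := fun m =>
    ∑ k ∈ Finset.Icc (-(m : ℤ)) m, (ev (k - 1) : StrongDual 𝕜 C₀(ℤ, 𝕜)).smulRight
      (((r k : ℝ) : 𝕜) • (e k : C₀(ℤ, 𝕜)))
  have hF : ∀ m x, F m x = trunc m (T x) := by
    intro m x
    rw [trunc_eq_sum]
    simp only [F, sum_apply, ContinuousLinearMap.smulRight_apply, ev_apply,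
      smul_smul, T_apply]
    refine Finset.sum_congr rfl fun k _ => ?_
    rw [mul_comm]
  refine isCompactOperator_of_tendsto (l := atTop) (F := F) ?_ (Eventually.of_forall fun m => ?_)
  · rw [Metric.tendsto_atTop]
    intro ε hε
    have h1 := r_tendsto
    rw [Metric.tendsto_nhds] at h1
    have h2 := h1 (ε / 2) (by positivity)
    rw [Filter.eventually_cofinite] at h2
    obtain ⟨m, hm⟩ : ∃ m : ℕ, ∀ i, ¬ dist (r i) 0 < ε / 2 → |i| ≤ m := by
      obtain ⟨b, hb⟩ := (h2.image (fun i : ℤ => |i|)).bddAbove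
      refine ⟨b.toNat, fun i hi => ?_⟩
      have := hb (Set.mem_image_of_mem _ hi)
      omega
    refine ⟨m, fun n hn => ?_⟩
    rw [dist_eq_norm]
    refine lt_of_le_of_lt ?_ (half_lt_self hε)
    apply ContinuousLinearMap.opNorm_le_bound _ (by positivity)
    intro x
    rw [sub_apply, hF, norm_le (by positivity)]
    intro i
    rw [ZeroAtInftyContinuousMap.sub_apply, trunc_apply]
    split_ifs with h
    · simp only [sub_self, norm_zero]; positivity
    · rw [zero_sub, norm_neg, T_apply, norm_mul, RCLike.norm_ofReal, abs_of_pos (r_pos i)]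
      have h3 : r i ≤ ε / 2 := by
        by_contra hcon
        apply h
        refine (hm i ?_).trans (by exact_mod_cast hn)
        intro h3
        apply hcon
        rw [dist_zero_right, Real.norm_eq_abs, abs_of_pos (r_pos i)] at h3
        exact h3.le
      exact mul_le_mul h3 (norm_apply_le _ _) (norm_nonneg _) (by positivity)
  · have h1 : ∀ s : Finset ℤ, IsCompactOperator
        (∑ k ∈ s, (ev (k - 1) : StrongDual 𝕜 C₀(ℤ, 𝕜)).smulRight
      (((r k : ℝ) : 𝕜) • (e k : C₀(ℤ, 𝕜))) : C₀(ℤ, 𝕜) →L[𝕜] C₀(ℤ, 𝕜)) := by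
      intro s
      classical
      induction s using Finset.induction_on with
      | empty =>
        rw [Finset.sum_empty]
        exact isCompactOperator_zero
      | insert a s ha ih =>
        rw [Finset.sum_insert ha]
        refine IsCompactOperator.add ?_ ih
        have h2 : IsCompactOperator (id : 𝕜 → 𝕜) := isCompactOperator_id
        have h3 : IsCompactOperator (ev (a - 1) : StrongDual 𝕜 C₀(ℤ, 𝕜)) :=
          h2.comp_clm (ev (a - 1) : StrongDual 𝕜 C₀(ℤ, 𝕜))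
        exact h3.clm_comp (ContinuousLinearMap.toSpanSingleton 𝕜 (((r a : ℝ) : 𝕜) • (e a : C₀(ℤ, 𝕜))))
    exact h1 _

end Pool.Agent.Helper66.WSC
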