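import Mathlib
import Pool.Agent.Helper66.WSC.Shift

set_option autoImplicit false

open Topology Filter Set ZeroAtInfty

namespace Pool.Agent.Helper66.WSC

variable {𝕜 : Type} [RCLike 𝕜]

lemma ofReal_norm_mul (a : ℝ) (ha : 0 ≤ a) (z : 𝕜) : ‖((a : ℝ) : 𝕜) * z‖ = a * ‖z‖ := by
  rw [norm_mul, RCLike.norm_ofReal, abs_of_nonneg ha]

lemma T_pow_at_n (n : ℕ) (X : C₀(ℤ, 𝕜)) : (T ^ n) X n = ((W n : ℝ) : 𝕜) * X 0 := by
  rw [T_pow_apply, sub_self, nu_natCast, show nu 0 = W 0 from rfl, W_zero, div_one]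

lemma T_pow_at_zero (n : ℕ) (X : C₀(ℤ, 𝕜)) :
    (T ^ n) X 0 = ((W n : ℝ) : 𝕜) * X (-(n : ℤ)) := by
  rw [T_pow_apply, zero_sub, nu_neg, show nu 0 = W 0 from rfl, W_zero, one_div, inv_inv]

lemma dirA (n : ℕ) (c : 𝕜) (X : C₀(ℤ, 𝕜)) (h1 : ‖X - e 0‖ < 1 / 4)
    (h2 : ‖c • (T ^ n) X - (e 0 + e 1)‖ < 1 / 4) : False := by
  set L : ℝ := ‖c‖ * W n with hL
  have hW := W_pos n
  have hX0 : ‖X 0 - 1‖ < 1 / 4 := by
    have := (norm_apply_le (X - e 0) 0).trans_lt h1
    simpa [e_apply] using this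
  have hX : ∀ k : ℤ, k ≠ 0 → ‖X k‖ < 1 / 4 := by
    intro k hk
    have := (norm_apply_le (X - e 0) k).trans_lt h1
    simpa [e_apply, hk] using this
  have hX0' : 3 / 4 < ‖X 0‖ := by
    have := norm_sub_norm_le (1 : 𝕜) (1 - X 0)
    rw [sub_sub_cancel, norm_one, norm_sub_rev] at this
    linarith
  have hat0 : ‖c * (((W n : ℝ) : 𝕜) * X (-(n : ℤ))) - 1‖ < 1 / 4 := by
    have := (norm_apply_le (c • (T ^ n) X - (e 0 + e 1)) 0).trans_lt h2
    rw [ZeroAtInftyContinuousMap.sub_apply, ZeroAtInftyContinuousMap.smul_apply, T_pow_at_zero,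
      ZeroAtInftyContinuousMap.add_apply, e_apply, e_apply] at this
    simpa using this
  have hat0' : 3 / 4 < L * ‖X (-(n : ℤ))‖ := by
    have := norm_sub_norm_le (1 : 𝕜) (1 - c * (((W n : ℝ) : 𝕜) * X (-(n : ℤ))))
    rw [sub_sub_cancel, norm_one, norm_sub_rev, norm_mul, ofReal_norm_mul _ hW.le] at this
    rw [hL, mul_assoc]
    linarith
  have hL0 : 0 ≤ L := by positivity
  rcases Nat.eq_zero_or_pos n with rfl | hn
  · -- n = 0
    have hat1 : ‖c * X 1 - 1‖ < 1 / 4 := by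
      have := (norm_apply_le (c • (T ^ 0) X - (e 0 + e 1)) 1).trans_lt h2
      simpa [e_apply] using this
    have hat1' : 3 / 4 < ‖c‖ * ‖X 1‖ := by
      have := norm_sub_norm_le (1 : 𝕜) (1 - c * X 1)
      rw [sub_sub_cancel, norm_one, norm_sub_rev, norm_mul] at this
      linarith
    have hat0'' : ‖c‖ * ‖X 0‖ < 5 / 4 := by
      have := norm_sub_norm_le (c * X 0) 1
      have h3 : ‖c * X 0 - 1‖ < 1 / 4 := by simpa [W_zero] using hat0
      rw [norm_one, norm_mul] at this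
      linarith
    have h4 := hX 1 (by norm_num)
    have hc := norm_nonneg c
    nlinarith [norm_nonneg (X 1)]
  · have hXn := hX (-(n : ℤ)) (by omega)
    have hL3 : 3 < L := by nlinarith [norm_nonneg (X (-(n : ℤ)))]
    have hatn : ‖c * (((W n : ℝ) : 𝕜) * X 0) - (if (n : ℤ) = 1 then 1 else 0)‖ < 1 / 4 := by
      have := (norm_apply_le (c • (T ^ n) X - (e 0 + e 1)) n).trans_lt h2
      rw [ZeroAtInftyContinuousMap.sub_apply, ZeroAtInftyContinuousMap.smul_apply, T_pow_at_n,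
        ZeroAtInftyContinuousMap.add_apply, e_apply, e_apply, if_neg (by omega), zero_add] at this
      exact this
    have hatn' : L * ‖X 0‖ < 5 / 4 := by
      have := norm_sub_norm_le (c * (((W n : ℝ) : 𝕜) * X 0)) (if (n : ℤ) = 1 then 1 else 0)
      have h5 : ‖(if (n : ℤ) = 1 then 1 else 0 : 𝕜)‖ ≤ 1 := by split_ifs <;> simp
      rw [norm_mul, ofReal_norm_mul _ hW.le] at this
      rw [hL, mul_assoc]
      linarith
    nlinarith

lemma dirB (n : ℕ) (c : 𝕜) (X : C₀(ℤ, 𝕜)) (h1 : ‖X - (e 0 + e 1)‖ < 1 / 4)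
    (h2 : ‖c • (T ^ n) X - e 0‖ < 1 / 4) : False := by
  set L : ℝ := ‖c‖ * W n with hL
  have hW := W_pos n
  have hX0 : ‖X 0 - 1‖ < 1 / 4 := by
    have := (norm_apply_le (X - (e 0 + e 1)) 0).trans_lt h1
    simpa [e_apply] using this
  have hX1 : ‖X 1 - 1‖ < 1 / 4 := by
    have := (norm_apply_le (X - (e 0 + e 1)) 1).trans_lt h1
    simpa [e_apply] using this
  have hX : ∀ k : ℤ, k < 0 → ‖X k‖ < 1 / 4 := by
    intro k hk
    have := (norm_apply_le (X - (e 0 + e 1)) k).trans_lt h1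
    have hk0 : k ≠ 0 := by omega
    have hk1 : k ≠ 1 := by omega
    simpa [e_apply, hk0, hk1] using this
  have hX0' : 3 / 4 < ‖X 0‖ := by
    have := norm_sub_norm_le (1 : 𝕜) (1 - X 0)
    rw [sub_sub_cancel, norm_one, norm_sub_rev] at this
    linarith
  have hX1' : 3 / 4 < ‖X 1‖ := by
    have := norm_sub_norm_le (1 : 𝕜) (1 - X 1)
    rw [sub_sub_cancel, norm_one, norm_sub_rev] at this
    linarith
  have hX0'' : ‖X 0‖ < 5 / 4 := by
    have := norm_sub_norm_le (X 0) 1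
    rw [norm_one] at this
    linarith
  have hat0 : ‖c * (((W n : ℝ) : 𝕜) * X (-(n : ℤ))) - 1‖ < 1 / 4 := by
    have := (norm_apply_le (c • (T ^ n) X - e 0) 0).trans_lt h2
    rw [ZeroAtInftyContinuousMap.sub_apply, ZeroAtInftyContinuousMap.smul_apply, T_pow_at_zero,
      e_apply] at this
    simpa using this
  have hat0' : 3 / 4 < L * ‖X (-(n : ℤ))‖ := by
    have := norm_sub_norm_le (1 : 𝕜) (1 - c * (((W n : ℝ) : 𝕜) * X (-(n : ℤ))))
    rw [sub_sub_cancel, norm_one, norm_sub_rev, norm_mul, ofReal_norm_mul _ hW.le] at this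
    rw [hL, mul_assoc]
    linarith
  have hL0 : 0 ≤ L := by positivity
  rcases Nat.eq_zero_or_pos n with rfl | hn
  · have hat1 : ‖c‖ * ‖X 1‖ < 1 / 4 := by
      have := (norm_apply_le (c • (T ^ 0) X - e 0) 1).trans_lt h2
      simpa [e_apply] using this
    have hL1 : L = ‖c‖ := by rw [hL, W_zero, mul_one]
    rw [hL1] at hat0' 
    have hc := norm_nonneg c
    simp only [Nat.cast_zero, neg_zero] at hat0'
    nlinarith
  · have hXn := hX (-(n : ℤ)) (by omega)
    have hL3 : 3 < L := by nlinarith [norm_nonneg (X (-(n : ℤ)))]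
    have hatn : ‖c * (((W n : ℝ) : 𝕜) * X 0)‖ < 1 / 4 := by
      have := (norm_apply_le (c • (T ^ n) X - e 0) n).trans_lt h2
      rw [ZeroAtInftyContinuousMap.sub_apply, ZeroAtInftyContinuousMap.smul_apply, T_pow_at_n,
        e_apply, if_neg (by omega), sub_zero] at this
      exact this
    rw [norm_mul, ofReal_norm_mul _ hW.le, ← mul_assoc, ← hL] at hatn
    nlinarith

lemma norm_e_ge (k : ℤ) : 1 ≤ ‖(e k : C₀(ℤ, 𝕜))‖ := by
  have := norm_apply_le (e k : C₀(ℤ, 𝕜)) k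
  simpa [e_apply] using this

theorem not_isSupercyclic_T : ¬ IsSupercyclic (T : C₀(ℤ, 𝕜) →L[𝕜] C₀(ℤ, 𝕜)) := by
  rintro ⟨x, hx⟩
  obtain ⟨y1, hy1, c1, k1, rfl⟩ := Metric.dense_iff.1 hx (e 0) (1 / 4) (by norm_num)
  obtain ⟨y2, hy2, c2, k2, rfl⟩ := Metric.dense_iff.1 hx (e 0 + e 1) (1 / 4) (by norm_num)
  rw [Metric.mem_ball, dist_eq_norm] at hy1 hy2
  have hc1 : c1 ≠ 0 := by
    rintro rfl
    rw [zero_smul, zero_sub, norm_neg] at hy1
    have := norm_e_ge (𝕜 := 𝕜) 0
    linarith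
  have hc2 : c2 ≠ 0 := by
    rintro rfl
    rw [zero_smul, zero_sub, norm_neg] at hy2
    have := norm_apply_le (e 0 + e 1 : C₀(ℤ, 𝕜)) 0
    simp [e_apply] at this
    linarith
  rcases le_total k1 k2 with h | h
  · obtain ⟨n, rfl⟩ := Nat.exists_eq_add_of_le h
    refine dirA n (c2 / c1) (c1 • (T ^ k1) x) hy1 ?_
    have : (c2 / c1) • (T ^ n) (c1 • (T ^ k1) x) = c2 • (T ^ (k1 + n)) x := by
      rw [map_smul, smul_smul, div_mul_cancel₀ _ hc1, add_comm, pow_add]
      rfl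
    rw [this]
    exact hy2
  · obtain ⟨n, rfl⟩ := Nat.exists_eq_add_of_le h
    refine dirB n (c1 / c2) (c2 • (T ^ k2) x) hy2 ?_
    have : (c1 / c2) • (T ^ n) (c2 • (T ^ k2) x) = c1 • (T ^ (k2 + n)) x := by
      rw [map_smul, smul_smul, div_mul_cancel₀ _ hc2, add_comm, pow_add]
      rfl
    rw [this]
    exact hy1

lemma pow3_sum {a b c d : ℕ} (h : 3 ^ a + 3 ^ b = 3 ^ c + 3 ^ d) :
    (a = c ∧ b = d) ∨ (a = d ∧ b = c) := by
  have key : ∀ a b c d : ℕ, a ≤ b → c ≤ d → 3 ^ a + 3 ^ b = 3 ^ c + 3 ^ d → a = c ∧ b = d := by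
    intro a b c d hab hcd h
    have h1 : 3 ^ a ≤ 3 ^ b := Nat.pow_le_pow_right (by norm_num) hab
    have h2 : 3 ^ c ≤ 3 ^ d := Nat.pow_le_pow_right (by norm_num) hcd
    have h3 : b = d := by
      rcases lt_trichotomy b d with h4 | h4 | h4
      · have h5 : 3 ^ (b + 1) ≤ 3 ^ d := Nat.pow_le_pow_right (by norm_num) h4
        have h6 : 0 < 3 ^ c := by positivity
        rw [pow_succ] at h5
        omega
      · exact h4
      · have h5 : 3 ^ (d + 1) ≤ 3 ^ b := Nat.pow_le_pow_right (by norm_num) h4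
        have h6 : 0 < 3 ^ a := by positivity
        rw [pow_succ] at h5
        omega
    subst h3
    have h4 : 3 ^ a = 3 ^ c := by omega
    exact ⟨Nat.pow_right_injective (by norm_num : 2 ≤ 3) h4, rfl⟩
  rcases le_total a b with h1 | h1 <;> rcases le_total c d with h2 | h2
  · exact Or.inl (key a b c d h1 h2 h)
  · obtain ⟨h3, h4⟩ := key a b d c h1 h2 (by omega)
    exact Or.inr ⟨h3, h4⟩
  · obtain ⟨h3, h4⟩ := key b a c d h1 h2 (by omega)
    exact Or.inr ⟨h4, h3⟩
  · obtain ⟨h3, h4⟩ := key b a d c h1 h2 (by omega)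
    exact Or.inl ⟨h4, h3⟩

/-- The times. -/
def tt (m l : ℕ) : ℤ := (2 * m + 1) * (3 ^ l - 1)

lemma tt_zero (m : ℕ) : tt m 0 = 0 := by simp [tt]

lemma tt_nonneg (m l : ℕ) : 0 ≤ tt m l := by
  unfold tt
  have : (1 : ℤ) ≤ 3 ^ l := one_le_pow₀ (by norm_num)
  have h2 : (0 : ℤ) ≤ 3 ^ l - 1 := by omega
  positivity

lemma tt_eq_of_close {m : ℕ} {a b : ℤ} (h : |(2 * m + 1) * a - (2 * m + 1) * b| ≤ 2 * m) :
    a = b := by
  by_contra hne
  have h1 : 1 ≤ |a - b| := Int.one_le_abs (sub_ne_zero.2 hne)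
  rw [← mul_sub, abs_mul, abs_of_nonneg (by positivity : (0 : ℤ) ≤ 2 * m + 1)] at h
  nlinarith

lemma sep {m j l j' l' : ℕ} {i : ℤ} (hjl : l ≠ j)
    (h1 : |i - tt m j + tt m l| ≤ m) (h2 : |i - tt m j' + tt m l'| ≤ m) :
    j = j' ∧ l = l' := by
  have h3 : |(2 * (m : ℤ) + 1) * (3 ^ j - 3 ^ l) - (2 * m + 1) * (3 ^ j' - 3 ^ l')| ≤ 2 * m := by
    have : (2 * (m : ℤ) + 1) * (3 ^ j - 3 ^ l) - (2 * m + 1) * (3 ^ j' - 3 ^ l') =
        (i - tt m j' + tt m l') - (i - tt m j + tt m l) := by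
      unfold tt; ring
    rw [this]
    calc |(i - tt m j' + tt m l') - (i - tt m j + tt m l)| ≤
        |i - tt m j' + tt m l'| + |i - tt m j + tt m l| := abs_sub _ _
      _ ≤ 2 * m := by linarith
  have h4 := tt_eq_of_close h3
  have h5 : 3 ^ j + 3 ^ l' = 3 ^ j' + 3 ^ l := by
    have : (3 : ℤ) ^ j + 3 ^ l' = 3 ^ j' + 3 ^ l := by linarith
    exact_mod_cast this
  rcases pow3_sum h5 with ⟨h6, h7⟩ | ⟨h6, h7⟩
  · exact ⟨h6, h7.symm⟩
  · exact absurd h6.symm hjl

lemma tt_inj_of_close {m l l' : ℕ} {i : ℤ} (h1 : |i + tt m l| ≤ m) (h2 : |i + tt m l'| ≤ m) :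
    l = l' := by
  have h3 : |(2 * (m : ℤ) + 1) * 3 ^ l - (2 * m + 1) * 3 ^ l'| ≤ 2 * m := by
    have : (2 * (m : ℤ) + 1) * 3 ^ l - (2 * m + 1) * 3 ^ l' =
        (i + tt m l) - (i + tt m l') := by
      unfold tt; ring
    rw [this]
    calc |(i + tt m l) - (i + tt m l')| ≤ |i + tt m l| + |i + tt m l'| := abs_sub _ _
      _ ≤ 2 * m := by linarith
  have h4 := tt_eq_of_close h3
  exact Nat.pow_right_injective (by norm_num : 2 ≤ 3) (by exact_mod_cast h4)

lemma norm_sum_le_of_unique {α : Type*} (P : Finset α) (f : α → 𝕜) (C : ℝ) (hC : 0 ≤ C)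
    (h1 : ∀ p ∈ P, ‖f p‖ ≤ C) (h2 : ∀ p ∈ P, ∀ q ∈ P, f p ≠ 0 → f q ≠ 0 → p = q) :
    ‖∑ p ∈ P, f p‖ ≤ C := by
  by_cases h : ∃ p ∈ P, f p ≠ 0
  · obtain ⟨p, hp, hfp⟩ := h
    rw [Finset.sum_eq_single_of_mem p hp]
    · exact h1 p hp
    · intro q hq hqp
      by_contra hne
      exact hqp (h2 q hq p hp hne hfp)
  · push Not at h
    rw [Finset.sum_eq_zero h, norm_zero]
    exact hC

/-- backward shift of a finitely supported vector. -/
noncomputable def back (y : C₀(ℤ, 𝕜)) (t : ℤ) (m : ℕ) : C₀(ℤ, 𝕜) :=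
  mk0 (fun i => if |i + t| ≤ m then ((nu i / nu (i + t) : ℝ) : 𝕜) * y (i + t) else 0) (by
    apply tendsto_nhds_of_eventually_eq
    rw [Filter.eventually_cofinite]
    apply (Set.finite_Icc (-(m : ℤ) - t) (m - t)).subset
    intro i hi
    simp only [mem_ofPred_eq, ite_eq_right_iff, Classical.not_imp] at hi
    have := abs_le.1 hi.1
    constructor <;> omega)

lemma back_apply (y : C₀(ℤ, 𝕜)) (t : ℤ) (m : ℕ) (hy : ∀ i, (m : ℤ) < |i| → y i = 0) (i : ℤ) :
    back y t m i = ((nu i / nu (i + t) : ℝ) : 𝕜) * y (i + t) := by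
  unfold back
  rw [mk0_apply]
  split_ifs with h
  · rfl
  · rw [hy _ (by omega), mul_zero]

lemma sum_apply' {α : Type*} (s : Finset α) (f : α → C₀(ℤ, 𝕜)) (i : ℤ) :
    (∑ k ∈ s, f k) i = ∑ k ∈ s, f k i := by
  have := map_sum (ev i : StrongDual 𝕜 C₀(ℤ, 𝕜)) f s
  exact this

lemma N_bound {m s : ℕ} (hms : m ≤ s) {l : ℕ}
    (hl : l ≤ (s + 1) ^ (4 * m + N s + 1)) : tt m l + m ≤ (N (s + 1) : ℤ) := by
  have h1 : (3 : ℤ) ^ l ≤ 3 ^ ((s + 1) ^ (4 * s + N s + 1)) := by
    apply pow_le_pow_right₀ (by norm_num)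
    refine hl.trans (Nat.pow_le_pow_right (by omega) (by omega))
  have h3 : ((N (s + 1) : ℕ) : ℤ) = N s + (2 * s + 2) * 3 ^ ((s + 1) ^ (4 * s + N s + 1)) + s + 1 := by
    rw [N_succ]; push_cast; ring
  rw [h3]
  unfold tt
  have h4 : (m : ℤ) ≤ s := by exact_mod_cast hms
  have h5 : (1 : ℤ) ≤ 3 ^ l := one_le_pow₀ (by norm_num)
  have h6 : (0 : ℤ) ≤ N s := by positivity
  have h7 : (2 * (m : ℤ) + 1) * (3 ^ l - 1) ≤ (2 * s + 2) * 3 ^ ((s + 1) ^ (4 * s + N s + 1)) := by
    apply mul_le_mul (by linarith) (by linarith) (by linarith) (by positivity)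
  linarith


theorem exists_z (x₀ : C₀(ℤ, 𝕜)) (hx₀ : x₀ ∈ D0) (y : C₀(ℤ, 𝕜)) (hy : y ∈ D0) (δ : ℝ)
    (hδ : 0 < δ) (K : ℕ) : ∃ z : C₀(ℤ, 𝕜), ‖z‖ < δ ∧ x₀ + z ∈ G T y K := by
  obtain ⟨m1, hm1⟩ := hx₀
  obtain ⟨m2, hm2⟩ := hy
  obtain ⟨m, hx₀m, hym⟩ : ∃ m : ℕ, (∀ i, (m : ℤ) < |i| → x₀ i = 0) ∧
      (∀ i, (m : ℤ) < |i| → y i = 0) := by
    refine ⟨max m1 m2, fun i hi => hm1 i ?_, fun i hi => hm2 i ?_⟩
    · exact lt_of_le_of_lt (by exact_mod_cast le_max_left _ _) hi
    · exact lt_of_le_of_lt (by exact_mod_cast le_max_right _ _) hi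
  -- constants
  set Cst : ℝ := (‖y‖ + 1) * (1 + 2 * ‖x₀‖ / δ) with hCst
  have hCst1 : 1 ≤ Cst := by
    have h1 : 0 ≤ ‖y‖ := norm_nonneg _
    have h2 : 0 ≤ 2 * ‖x₀‖ / δ := by positivity
    nlinarith
  obtain ⟨s, hms, hsK⟩ : ∃ s : ℕ, m ≤ s ∧ 2 * K * Cst ≤ (s : ℝ) + 1 := by
    obtain ⟨s0, hs0⟩ := exists_nat_ge (2 * K * Cst)
    refine ⟨max m s0, le_max_left _ _, ?_⟩
    have : (s0 : ℝ) ≤ ((max m s0 : ℕ) : ℝ) := by exact_mod_cast le_max_right _ _
    linarith
  set Θ : ℝ := (s : ℝ) + 1 with hΘ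
  have hΘ1 : 1 ≤ Θ := by
    have : (0 : ℝ) ≤ s := by positivity
    linarith
  have hΘ0 : 0 < Θ := by linarith
  set M : ℕ := (s + 1) ^ (4 * m + N s + 1) with hM
  have hMR : (M : ℝ) = Θ ^ (4 * m + N s + 1) := by rw [hM, hΘ]; push_cast; ring
  set c : ℝ := δ / (2 * (‖y‖ + 1) * Θ ^ (2 * m)) with hc
  have hy1 : 0 < ‖y‖ + 1 := by positivity
  have hc0 : 0 < c := by positivity
  have hNb : ∀ l, l ≤ M → tt m l + m ≤ (N (s + 1) : ℤ) := fun l hl => N_bound hms hl
  have htn : ∀ l, ((tt m l).toNat : ℤ) = tt m l := fun l => Int.toNat_of_nonneg (tt_nonneg m l)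
  have hWt : ∀ l, nu (tt m l) = W (tt m l).toNat := by
    intro l; conv_lhs => rw [← htn l]
    rfl
  have hnt : ∀ l, nu (-(tt m l)) = (W (tt m l).toNat)⁻¹ := by
    intro l; conv_lhs => rw [← htn l]
    exact nu_neg _
  -- the perturbation
  set z : C₀(ℤ, 𝕜) := ∑ l ∈ Finset.Icc 1 M, ((c * W (tt m l).toNat : ℝ) : 𝕜) •
    back y (tt m l) m with hz
  have hz_apply : ∀ i, z i = ∑ l ∈ Finset.Icc 1 M, ((c * W (tt m l).toNat : ℝ) : 𝕜) *
      (((nu i / nu (i + tt m l) : ℝ) : 𝕜) * y (i + tt m l)) := by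
    intro i
    rw [hz, sum_apply']
    refine Finset.sum_congr rfl fun l _ => ?_
    rw [ZeroAtInftyContinuousMap.smul_apply, back_apply _ _ _ hym, smul_eq_mul]
  have hcy : c * Θ ^ (2 * m) * ‖y‖ ≤ δ / 2 := by
    have h1 : c * Θ ^ (2 * m) = δ / (2 * (‖y‖ + 1)) := by
      rw [hc]; field_simp
    rw [h1, div_mul_eq_mul_div, div_le_div_iff₀ (by positivity) (by norm_num)]
    nlinarith [norm_nonneg y]
  have hz_norm : ‖z‖ ≤ δ / 2 := by
    rw [norm_le (by positivity)]
    intro i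
    rw [hz_apply]
    apply norm_sum_le_of_unique _ _ _ (by positivity)
    · intro l hl
      rw [Finset.mem_Icc] at hl
      by_cases hp : |i + tt m l| ≤ m
      · have h1 : nu i / nu (i + tt m l) ≤ Θ ^ (2 * m) * nu (-(tt m l)) := by
          have := nu_ratio_le (s := s) (m := m) (p := i + tt m l) (d := -(tt m l)) hp (by
            rw [abs_neg, abs_of_nonneg (tt_nonneg m l)]; exact hNb l hl.2)
          rwa [add_neg_cancel_right] at this
        have hpos : 0 ≤ nu i / nu (i + tt m l) := (div_pos (nu_pos _) (nu_pos _)).le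
        have hWp := W_pos (tt m l).toNat
        have hnp := nu_pos (-(tt m l))
        rw [ofReal_norm_mul _ (by positivity), ofReal_norm_mul _ hpos]
        calc c * W (tt m l).toNat * (nu i / nu (i + tt m l) * ‖y (i + tt m l)‖)
            ≤ c * W (tt m l).toNat * ((Θ ^ (2 * m) * nu (-(tt m l))) * ‖y‖) := by
              gcongr
              exact norm_apply_le y _
          _ = c * Θ ^ (2 * m) * ‖y‖ := by
              rw [hnt]; field_simp
          _ ≤ δ / 2 := hcy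
      · rw [hym _ (by omega)]
        simp only [mul_zero, norm_zero]
        positivity
    · intro l _ l' _ h1 h2
      have h3 : |i + tt m l| ≤ m := by
        by_contra hcon
        apply h1
        rw [hym _ (by omega), mul_zero, mul_zero]
      have h4 : |i + tt m l'| ≤ m := by
        by_contra hcon
        apply h2
        rw [hym _ (by omega), mul_zero, mul_zero]
      exact tt_inj_of_close h3 h4
  refine ⟨z, lt_of_le_of_lt hz_norm (half_lt_self hδ), ?_⟩
  set b' : ℝ := Θ ^ (4 * m + N s) * Cst with hb'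
  have hb'0 : 0 < b' := by positivity
  -- coefficients
  let cc : ℕ → ℝ := fun l => if l = 0 then 1 else c * W (tt m l).toNat
  let yy : ℕ → C₀(ℤ, 𝕜) := fun l => if l = 0 then x₀ else y
  have hcc0 : cc 0 = 1 := rfl
  have hyy0 : yy 0 = x₀ := rfl
  have hcc : ∀ l, 1 ≤ l → cc l = c * W (tt m l).toNat := fun l hl => by
    simp only [cc]; rw [if_neg (by omega)]
  have hyy : ∀ l, 1 ≤ l → yy l = y := fun l hl => by
    simp only [yy]; rw [if_neg (by omega)]
  have hccpos : ∀ l, 0 < cc l := by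
    intro l
    rcases Nat.eq_zero_or_pos l with rfl | hl
    · rw [hcc0]; norm_num
    · rw [hcc l hl]
      have := W_pos (tt m l).toNat
      positivity
  have hyym : ∀ l i, (m : ℤ) < |i| → yy l i = 0 := by
    intro l i hi
    simp only [yy]
    split_ifs
    · exact hx₀m i hi
    · exact hym i hi
  have hX : ∀ i, (x₀ + z) i = ∑ l ∈ Finset.range (M + 1), ((cc l : ℝ) : 𝕜) *
      (((nu i / nu (i + tt m l) : ℝ) : 𝕜) * yy l (i + tt m l)) := by
    intro i
    rw [Finset.sum_range_eq_add_Ico _ (by omega), ZeroAtInftyContinuousMap.add_apply, hz_apply]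
    congr 1
    · rw [hcc0, hyy0, tt_zero, add_zero, div_self (nu_pos i).ne']
      simp
    · have : Finset.Ico 1 (M + 1) = Finset.Icc 1 M := by ext; simp
      rw [this]
      refine Finset.sum_congr rfl fun l hl => ?_
      rw [Finset.mem_Icc] at hl
      rw [hcc l hl.1, hyy l hl.1]
  refine ⟨M, fun j => (tt m (j + 1)).toNat, fun j => (((cc (j + 1))⁻¹ : ℝ) : 𝕜), b', 2 * b', hb'0,
    by linarith, ?_, ?_⟩
  · rw [hMR, hb', pow_succ]
    have : 0 < Θ ^ (4 * m + N s) := by positivity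
    nlinarith
  intro ε hε
  rw [norm_le hb'0.le]
  intro i
  rw [sum_apply']
  -- the error terms
  let E : ℕ → ℕ → 𝕜 := fun j l => (((cc l / cc j : ℝ)) : 𝕜) *
      (((nu i / nu (i - tt m j + tt m l) : ℝ) : 𝕜) * yy l (i - tt m j + tt m l))
  have hE : ∀ j : Fin M, (ε j • ((((cc (j + 1))⁻¹ : ℝ) : 𝕜) • (T ^ (tt m (j + 1)).toNat) (x₀ + z) - y)) i
      = ∑ l ∈ (Finset.range (M + 1)).erase (j + 1), ε j * E (j + 1) l := by
    intro j
    have hj1 : 1 ≤ (j : ℕ) + 1 := by omega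
    have hjM : (j : ℕ) + 1 ∈ Finset.range (M + 1) := by
      rw [Finset.mem_range]; have := j.2; omega
    rw [ZeroAtInftyContinuousMap.smul_apply, ZeroAtInftyContinuousMap.sub_apply,
      ZeroAtInftyContinuousMap.smul_apply, T_pow_apply, htn, hX, ← Finset.mul_sum, smul_eq_mul,
      smul_eq_mul]
    congr 1
    rw [Finset.mul_sum, Finset.mul_sum]
    rw [← Finset.add_sum_erase _ _ hjM]
    have h1 : ∀ l, (((cc (j + 1))⁻¹ : ℝ) : 𝕜) * (((nu i / nu (i - tt m (j + 1)) : ℝ) : 𝕜) *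
        (((cc l : ℝ) : 𝕜) * (((nu (i - tt m (j + 1)) / nu (i - tt m (j + 1) + tt m l) : ℝ) : 𝕜) *
          yy l (i - tt m (j + 1) + tt m l)))) = E (j + 1) l := by
      intro l
      simp only [E]
      have h2 : (nu (i - tt m (j + 1))) ≠ 0 := (nu_pos _).ne'
      have h3 : (nu i / nu (i - tt m (j + 1) + tt m l)) = (nu i / nu (i - tt m (j + 1))) *
        (nu (i - tt m (j + 1)) / nu (i - tt m (j + 1) + tt m l)) := by
        field_simp
      rw [h3, div_eq_mul_inv (cc l)]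
      push_cast
      ring
    rw [h1]
    have h2 : E (j + 1) (j + 1) = y i := by
      simp only [E]
      rw [sub_add_cancel, div_self (hccpos _).ne', div_self (nu_pos i).ne', hyy _ hj1]
      simp
    rw [h2, add_sub_cancel_left]
    exact Finset.sum_congr rfl fun l _ => h1 l
  have hsum : ∑ j : Fin M, (ε j • ((((cc (j + 1))⁻¹ : ℝ) : 𝕜) •
      (T ^ (tt m (j + 1)).toNat) (x₀ + z) - y)) i =
      ∑ p ∈ (Finset.univ : Finset (Fin M)).sigma
        (fun j => (Finset.range (M + 1)).erase ((j : ℕ) + 1)), ε p.1 * E (p.1 + 1) p.2 := by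
    rw [Finset.sum_sigma]
    exact Finset.sum_congr rfl fun j _ => hE j
  rw [hsum]
  apply norm_sum_le_of_unique _ _ _ hb'0.le
  · rintro ⟨j, l⟩ hp
    rw [Finset.mem_sigma, Finset.mem_erase, Finset.mem_range] at hp
    obtain ⟨-, hlj, hlM⟩ := hp
    simp only at hlj hlM ⊢
    have hj1 : 1 ≤ (j : ℕ) + 1 := by omega
    have hjM : (j : ℕ) + 1 ≤ M := j.2
    rw [norm_mul]
    have hεj := hε j
    suffices h : ‖E (j + 1) l‖ ≤ b' by
      calc ‖ε j‖ * ‖E (j + 1) l‖ ≤ 1 * b' := by gcongr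
        _ = b' := one_mul _
    simp only [E]
    by_cases hp : |i - tt m (j + 1) + tt m l| ≤ m
    · set d : ℤ := tt m (j + 1) - tt m l with hd
      set p : ℤ := i - tt m (j + 1) + tt m l with hpdef
      have hip : i = p + d := by rw [hpdef, hd]; ring
      have hdabs : |d| + m ≤ N (s + 1) := by
        have h1 := tt_nonneg m (j + 1)
        have h2 := tt_nonneg m l
        have h3 := hNb _ hjM
        have h4 := hNb l (by omega)
        have h5 : |d| ≤ max (tt m (j + 1)) (tt m l) := by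
          rw [hd, abs_le]
          constructor
          · have := le_max_right (tt m (j + 1)) (tt m l); omega
          · have := le_max_left (tt m (j + 1)) (tt m l); omega
        rcases le_total (tt m (j + 1)) (tt m l) with h6 | h6
        · rw [max_eq_right h6] at h5; omega
        · rw [max_eq_left h6] at h5; omega
      have hrat : nu i / nu p ≤ Θ ^ (2 * m) * nu d := by
        rw [hip]; exact nu_ratio_le hp hdabs
      have hpos : 0 ≤ nu i / nu p := (div_pos (nu_pos _) (nu_pos _)).le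
      have hccd : 0 ≤ cc l / cc (j + 1) := (div_pos (hccpos _) (hccpos _)).le
      rw [ofReal_norm_mul _ hccd, ofReal_norm_mul _ hpos]
      have hWj := W_pos (tt m (j + 1)).toNat
      have hWl := W_pos (tt m l).toNat
      have hnud := nu_pos d
      -- bound of the product `cc l / cc (j+1) * nu d * ‖yy l‖`
      have hmain : cc l / cc (j + 1) * nu d * ‖yy l‖ ≤ Θ ^ (2 * m + N s) * Cst := by
        rcases Nat.eq_zero_or_pos l with rfl | hl
        · have hd' : nu d = W (tt m (j + 1)).toNat := by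
            rw [hd, tt_zero, sub_zero, hWt]
          rw [hcc0, hyy0, hcc _ hj1, hd']
          have h1 : 1 / (c * W (tt m (↑j + 1)).toNat) * W (tt m (↑j + 1)).toNat * ‖x₀‖ =
              ‖x₀‖ / c := by field_simp
          rw [h1]
          have h2 : ‖x₀‖ / c = Θ ^ (2 * m) * ((‖y‖ + 1) * (2 * ‖x₀‖ / δ)) := by
            rw [hc]; field_simp
          rw [h2]
          have h3 : Θ ^ (2 * m) ≤ Θ ^ (2 * m + N s) := pow_le_pow_right₀ hΘ1 (by omega)
          have h4 : (‖y‖ + 1) * (2 * ‖x₀‖ / δ) ≤ Cst := by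
            rw [hCst]
            gcongr
            linarith
          gcongr
        · rw [hcc l hl, hcc _ hj1, hyy l hl]
          have h1 : c * W (tt m l).toNat / (c * W (tt m (j + 1)).toNat) =
              W (tt m l).toNat / W (tt m (j + 1)).toNat := by
            field_simp
          rw [h1]
          have h2 : W (tt m l).toNat / W (tt m (j + 1)).toNat * nu d ≤ Θ ^ N s := by
            rcases le_total (tt m l) (tt m (j + 1)) with h3 | h3
            · obtain ⟨k, hk⟩ : ∃ k : ℕ, (tt m (j + 1)).toNat = (tt m l).toNat + k :=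
                ⟨(tt m (j + 1)).toNat - (tt m l).toNat, by omega⟩
              have h4 : d = (k : ℤ) := by
                have := htn l
                have := htn (j + 1)
                omega
              have h5 : (tt m l).toNat + k ≤ N (s + 1) := by
                have := hNb _ hjM
                omega
              have h6 := W_mul_le (s := s) h5
              rw [h4, nu_natCast, hk]
              rw [div_mul_eq_mul_div, div_le_iff₀ (W_pos _)]
              rw [mul_comm]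
              exact h6
            · obtain ⟨k, hk⟩ : ∃ k : ℕ, (tt m l).toNat = (tt m (j + 1)).toNat + k :=
                ⟨(tt m l).toNat - (tt m (j + 1)).toNat, by omega⟩
              have h4 : d = -(k : ℤ) := by
                have := htn l
                have := htn (j + 1)
                omega
              rw [h4, nu_neg, hk]
              have h5 := W_add_le (tt m (j + 1)).toNat k
              have h6 := W_pos k
              have h7 : W ((tt m (j + 1)).toNat + k) / W (tt m (j + 1)).toNat * (W k)⁻¹ ≤ 1 := by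
                rw [← div_eq_mul_inv, div_div, div_le_one (by positivity)]
                exact h5
              exact h7.trans (one_le_pow₀ hΘ1)
          calc W (tt m l).toNat / W (tt m (j + 1)).toNat * nu d * ‖y‖ ≤ Θ ^ N s * ‖y‖ := by gcongr
            _ ≤ Θ ^ (2 * m + N s) * Cst := by
              have h3 : Θ ^ N s ≤ Θ ^ (2 * m + N s) := pow_le_pow_right₀ hΘ1 (by omega)
              have h4 : ‖y‖ ≤ Cst := by
                rw [hCst]
                have : 0 ≤ 2 * ‖x₀‖ / δ := by positivity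
                nlinarith [norm_nonneg y]
              gcongr
      calc cc l / cc (j + 1) * (nu i / nu p * ‖yy l p‖)
          ≤ cc l / cc (j + 1) * ((Θ ^ (2 * m) * nu d) * ‖yy l‖) := by
            gcongr
            exact norm_apply_le (yy l) _
        _ = Θ ^ (2 * m) * (cc l / cc (j + 1) * nu d * ‖yy l‖) := by ring
        _ ≤ Θ ^ (2 * m) * (Θ ^ (2 * m + N s) * Cst) := by gcongr
        _ = b' := by rw [hb']; ring
    · rw [hyym _ _ (by omega)]
      simp only [mul_zero, norm_zero]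
      exact hb'0.le
  · rintro ⟨j, l⟩ hp ⟨j', l'⟩ hp' h1 h2
    rw [Finset.mem_sigma, Finset.mem_erase] at hp hp'
    simp only at hp hp' h1 h2
    have h3 : |i - tt m (j + 1) + tt m l| ≤ m := by
      by_contra hcon
      apply h1
      simp only [E]
      rw [hyym _ _ (by omega), mul_zero, mul_zero, mul_zero]
    have h4 : |i - tt m (j' + 1) + tt m l'| ≤ m := by
      by_contra hcon
      apply h2
      simp only [E]
      rw [hyym _ _ (by omega), mul_zero, mul_zero, mul_zero]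
    obtain ⟨h5, h6⟩ := sep hp.2.1 h3 h4
    have h7 : j = j' := Fin.ext (by omega)
    subst h7
    subst h6
    rfl

theorem isWeaklySupercyclic_T : IsWeaklySupercyclic (T : C₀(ℤ, 𝕜) →L[𝕜] C₀(ℤ, 𝕜)) :=
  isWeaklySupercyclic_of (𝕜 := 𝕜) (B := C₀(ℤ, 𝕜)) T D0 dense_D0 isSeparable_D0 exists_z

theorem main (𝕜 : Type) [RCLike 𝕜] :
    ∃ (B : Type) (_ : NormedAddCommGroup B) (_ : NormedSpace 𝕜 B) (_ : CompleteSpace B)
      (T : B →L[𝕜] B), HypothesisH T ∧ IsCompactOperator T ∧ IsWeaklySupercyclic T ∧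
        ¬ IsSupercyclic T :=
  ⟨C₀(ℤ, 𝕜), inferInstance, inferInstance, inferInstance, T,
    ⟨T, isCompactOperator_T, denseRange_T, rfl⟩, isCompactOperator_T, isWeaklySupercyclic_T,
    not_isSupercyclic_T⟩

end Pool.Agent.Helper66.WSC
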